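import Pool.Agent.Y700.VC
import Pool.Agent.Y682.XT.Stm

/-!
# Project XT (helper682): the points and the Tate-Shafarevich group over a number field do not depend
on the Weierstrass equation
-/

set_option autoImplicit false

open WeierstrassCurve

namespace Pool.Agent.Y655.XT

open Pool.Agent.Y700 (VR)
open Pool.Agent.TH841.SH.D (Pt act Gal Coch IsCoc IsCob LocTriv cob)
open Pool.Agent.TH841.NF.D (Sha shaCoc)

section general

variable {k : Type} [Field k]

/-- compatible isomorphisms of the groups of points over all extensions -/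
structure Iso (W W' : WeierstrassCurve k) where
  /-- the isomorphisms -/
  e : ∀ (L : Type) [Field L] [Algebra k L], Pt W' L ≃+ Pt W L
  /-- they commute with the homomorphisms of fields -/
  ac : ∀ {F L : Type} [Field F] [Algebra k F] [Field L] [Algebra k L] (φ : F →ₐ[k] L)
    (P : Pt W' F), e L (act W' φ P) = act W φ (e F P)

/-- the inverse isomorphisms -/
noncomputable def Iso.symm {W W' : WeierstrassCurve k} (I : Iso W W') : Iso W' W where
  e := fun L _ _ => (I.e L).symm
  ac := by
    intro F L _ _ _ _ φ P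
    apply (I.e L).injective
    rw [AddEquiv.apply_symm_apply, I.ac, AddEquiv.apply_symm_apply]

/-- the map on functions -/
noncomputable def Iso.coch {W W' : WeierstrassCurve k} (I : Iso W W') (f : Coch W') : Coch W :=
  fun σ => I.e _ (f σ)

theorem Iso.loc {W W' : WeierstrassCurve k} (I : Iso W W') {K : Type} [Field K] [Algebra k K]
    {f : Coch W'} (hf : LocTriv W' K f) : LocTriv W K (I.coch f) := by
  intro ι
  obtain ⟨P, hP⟩ := hf ι
  refine ⟨I.e _ P, fun τ σ hτ => ?_⟩
  change act W ι (I.e _ (f σ)) = _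
  rw [← I.ac, hP τ σ hτ, map_sub, I.ac]

theorem Iso.coc {W W' : WeierstrassCurve k} (I : Iso W W') {f : Coch W'} (hf : IsCoc W' f) :
    IsCoc W (I.coch f) := by
  refine ⟨hf.1.comp (I.e _), fun σ τ => ?_⟩
  change I.e _ (f (σ * τ)) = I.e _ (f σ) + act W σ.toAlgHom (I.e _ (f τ))
  rw [hf.2, map_add, I.ac]

theorem Iso.cob {W W' : WeierstrassCurve k} (I : Iso W W') {f : Coch W'} (hf : IsCob W' f) :
    IsCob W (I.coch f) := by
  obtain ⟨P, hP⟩ := hf
  refine ⟨I.e _ P, fun σ => ?_⟩
  change I.e _ (f σ) = _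
  rw [hP, map_sub, I.ac]

theorem Iso.symm_coch {W W' : WeierstrassCurve k} (I : Iso W W') (f : Coch W') :
    I.symm.coch (I.coch f) = f := by
  funext σ
  exact (I.e _).symm_apply_apply (f σ)

theorem Iso.coch_symm {W W' : WeierstrassCurve k} (I : Iso W W') (f : Coch W) :
    I.coch (I.symm.coch f) = f := by
  funext σ
  exact (I.e _).apply_symm_apply (f σ)

theorem Iso.coch_add {W W' : WeierstrassCurve k} (I : Iso W W') (f g : Coch W') :
    I.coch (f + g) = I.coch f + I.coch g := by
  funext σ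
  exact map_add (I.e _) (f σ) (g σ)

end general

section sha

variable {K : Type} [Field K] [NumberField K] {W W' : WeierstrassCurve K}

theorem Iso.sha_mem (I : Iso W W') {f : Coch W'} (hf : f ∈ shaCoc W') : I.coch f ∈ shaCoc W :=
  ⟨I.coc hf.1, fun v => I.loc (hf.2.1 v), fun v => I.loc (hf.2.2 v)⟩

/-- the isomorphism of the groups of cocycles -/
noncomputable def Iso.shaC (I : Iso W W') : shaCoc W' ≃+ shaCoc W where
  toFun f := ⟨I.coch f.1, I.sha_mem f.2⟩
  invFun g := ⟨I.symm.coch g.1, I.symm.sha_mem g.2⟩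
  left_inv f := Subtype.ext (I.symm_coch f.1)
  right_inv g := Subtype.ext (I.coch_symm g.1)
  map_add' f g := Subtype.ext (I.coch_add f.1 g.1)

theorem Iso.map_cob (I : Iso W W') : ((Pool.Agent.TH841.SH.D.cob W').addSubgroupOf (shaCoc W')).map
    (I.shaC : shaCoc W' →+ shaCoc W) =
    (Pool.Agent.TH841.SH.D.cob W).addSubgroupOf (shaCoc W) := by
  ext g
  rw [AddSubgroup.mem_map, AddSubgroup.mem_addSubgroupOf]
  constructor
  · rintro ⟨f, hf, rfl⟩
    rw [AddSubgroup.mem_addSubgroupOf] at hf
    exact I.cob hf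
  · intro hg
    refine ⟨I.shaC.symm g, ?_, I.shaC.apply_symm_apply g⟩
    rw [AddSubgroup.mem_addSubgroupOf]
    exact I.symm.cob hg

/-- the isomorphism of the Tate-Shafarevich groups -/
noncomputable def Iso.sha (I : Iso W W') : Sha W' ≃+ Sha W :=
  QuotientAddGroup.congr _ _ I.shaC I.map_cob

end sha

section vc

variable {k : Type} [Field k] {W W' : WeierstrassCurve k} {u r s t : k}

theorem dL (hD : W'.Δ ≠ 0) (L : Type) [Field L] [Algebra k L] :
    (W'.map (algebraMap k L)).Δ ≠ 0 := by
  rw [WeierstrassCurve.map_Δ]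
  exact (map_ne_zero _).2 hD

/-- the isomorphism on the points over `L` -/
noncomputable def eL (h : VR W W' u r s t) (hD : W'.Δ ≠ 0) (L : Type) [Field L] [Algebra k L] :
    Pt W' L ≃+ Pt W L :=
  @VR.equiv L _ (Classical.decEq L) _ _ _ _ _ _ (h.map (algebraMap k L)) (dL hD L)

theorem some_ext {F : Type} [Field F] {V : Affine F} {x y x' y' : F} (h : V.Nonsingular x y)
    (h' : V.Nonsingular x' y') (hx : x = x') (hy : y = y') :
    Affine.Point.some x y h = Affine.Point.some x' y' h' := by
  subst hx hy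
  rfl

theorem eL_act (h : VR W W' u r s t) (hD : W'.Δ ≠ 0) {F L : Type} [Field F] [Algebra k F]
    [Field L] [Algebra k L] (φ : F →ₐ[k] L) (P : Pt W' F) :
    eL h hD L (act W' φ P) = act W φ (eL h hD F P) := by
  match P with
  | 0 =>
    have e1 : act W' φ (0 : Pt W' F) = 0 := map_zero _
    have e2 : eL h hD F (0 : Pt W' F) = 0 := map_zero _
    rw [e1, e2, map_zero, map_zero]
  | .some x y hn =>
    have hn1 : (W'.baseChange L).toAffine.Nonsingular (φ x) (φ y) :=
      (Affine.baseChange_nonsingular W' φ.injective ..).mpr hn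
    have hn2 : (W.baseChange F).toAffine.Nonsingular (algebraMap k F u ^ 2 * x + algebraMap k F r)
        (algebraMap k F u ^ 3 * y + algebraMap k F u ^ 2 * algebraMap k F s * x +
          algebraMap k F t) :=
      Pool.Agent.Y700.nonsing ((h.map (algebraMap k F)).delta_ne (dL hD F))
          ((h.map (algebraMap k F)).eqn.2 hn.1)
    have hn3 : (W.baseChange L).toAffine.Nonsingular
        (algebraMap k L u ^ 2 * φ x + algebraMap k L r)
        (algebraMap k L u ^ 3 * φ y + algebraMap k L u ^ 2 * algebraMap k L s * φ x +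
          algebraMap k L t) :=
      Pool.Agent.Y700.nonsing ((h.map (algebraMap k L)).delta_ne (dL hD L))
          ((h.map (algebraMap k L)).eqn.2 hn1.1)
    have e1 : eL h hD F (.some x y hn : Pt W' F) = .some _ _ hn2 := rfl
    have e3 : eL h hD L (.some (φ x) (φ y) hn1 : Pt W' L) = .some _ _ hn3 := rfl
    have e4 : act W' φ (.some x y hn : Pt W' F) = .some (φ x) (φ y) hn1 := rfl
    have e5 : act W φ (.some _ _ hn2 : Pt W F) = .some _ _
      ((Affine.baseChange_nonsingular W φ.injective ..).mpr hn2) := rfl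
    rw [e1, e4, e3, e5]
    refine some_ext _ _ ?_ ?_
    · rw [map_add, map_mul, map_pow, φ.commutes, φ.commutes]
    · rw [map_add, map_add, map_mul, map_mul, map_mul, map_pow, map_pow, φ.commutes, φ.commutes,
        φ.commutes]

/-- the isomorphisms given by a change of variables -/
noncomputable def isoVR (h : VR W W' u r s t) (hD : W'.Δ ≠ 0) : Iso W W' where
  e := fun L _ _ => eL h hD L
  ac := fun φ P => eL_act h hD φ P

/-- the change of variables -/
theorem vr_of_smul {C : VariableChange k} (h : C • W = W') :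
    VR W W' (C.u : k) C.r C.s C.t where
  u0 := C.u.ne_zero
  e1 := by
    rw [← h, variableChange_a₁]
    have : (C.u : k) * ((C.u⁻¹ : kˣ) : k) = 1 := C.u.mul_inv
    linear_combination (W.a₁ + 2 * C.s) * this
  e2 := by
    rw [← h, variableChange_a₂]
    have : ((C.u : k) * ((C.u⁻¹ : kˣ) : k)) ^ 2 = 1 := by rw [C.u.mul_inv, one_pow]
    linear_combination (W.a₂ - C.s * W.a₁ + 3 * C.r - C.s ^ 2) * this
  e3 := by
    rw [← h, variableChange_a₃]
    have : ((C.u : k) * ((C.u⁻¹ : kˣ) : k)) ^ 3 = 1 := by rw [C.u.mul_inv, one_pow]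
    linear_combination (W.a₃ + C.r * W.a₁ + 2 * C.t) * this
  e4 := by
    rw [← h, variableChange_a₄]
    have : ((C.u : k) * ((C.u⁻¹ : kˣ) : k)) ^ 4 = 1 := by rw [C.u.mul_inv, one_pow]
    linear_combination (W.a₄ - C.s * W.a₃ + 2 * C.r * W.a₂ - (C.t + C.r * C.s) * W.a₁ +
      3 * C.r ^ 2 - 2 * C.s * C.t) * this
  e6 := by
    rw [← h, variableChange_a₆]
    have : ((C.u : k) * ((C.u⁻¹ : kˣ) : k)) ^ 6 = 1 := by rw [C.u.mul_inv, one_pow]
    linear_combination (W.a₆ + C.r * W.a₄ + C.r ^ 2 * W.a₂ + C.r ^ 3 - C.t * W.a₃ - C.t ^ 2 -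
      C.r * C.t * W.a₁) * this

end vc

open scoped Classical in
theorem s_shavc : Pool.Agent.Y682.XT.S_SHAVC := by
  intro K _ _ W W' C hD hC
  have h := vr_of_smul hC
  have hD' : W'.Δ ≠ 0 := by
    intro h0
    apply hD
    rw [h.delta, h0, mul_zero]
  exact ⟨⟨(h.equiv hD').symm⟩, ⟨(isoVR h hD').sha.symm⟩⟩

end Pool.Agent.Y655.XT
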